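import Pool.Agent.TH12.EN.FishMain
set_option autoImplicit false

/-!
# Fisher information of `X + Y` against `X + Z`: laws on an interval of length less than `π`

`X`, `Y` are independent with the law `μ`, and `Z` is an independent standard Gaussian. If `X` lies in
an interval of length less than `π` (for a law of variance one: less than `π` standard deviations;
the shortest possible interval has length `2`), then `I(X + Y) ≥ 1 ≥ I(X + Z)`.
-/

namespace Pool.Agent.Results.MP_ec2ab1_pr.ShortInterval

open MeasureTheory ProbabilityTheory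
open scoped ENNReal

/-- The law of `X + Y`. -/
noncomputable def sumLaw (μ : Measure ℝ) : Measure ℝ :=
  (μ.prod μ).map (fun p : ℝ × ℝ => p.1 + p.2)

/-- The law of `X + Z`. -/
noncomputable def gaussLaw (μ : Measure ℝ) : Measure ℝ :=
  (μ.prod (gaussianReal 0 1)).map (fun p : ℝ × ℝ => p.1 + p.2)

/-- The smooth positive density of `X + Z`. -/
noncomputable def dens (μ : Measure ℝ) (y : ℝ) : ℝ :=
  ∫ x, gaussianPDFReal 0 1 (y - x) ∂μ

/-- The Fisher information of a law with the absolutely continuous density `f`: the integral of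
`f' ^ 2 / f` over the set where `f` is positive. -/
noncomputable def fisher (f : ℝ → ℝ) : ℝ≥0∞ :=
  ∫⁻ x, ENNReal.ofReal (deriv f x ^ 2 / f x)

/-- Let `X` lie almost surely in an interval `[a, a + ℓ]` with `ℓ < π`. Then `dens μ` is a positive
differentiable density of `X + Z` with Fisher information at most `1`, and every absolutely
continuous density of `X + Y` has Fisher information at least `1`. -/
theorem result (μ : Measure ℝ) [IsProbabilityMeasure μ] (a ℓ : ℝ) (hℓ : ℓ < Real.pi)
    (hA : ∀ᵐ x ∂μ, x ∈ Set.Icc a (a + ℓ)) :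
    (gaussLaw μ = volume.withDensity (fun y => ENNReal.ofReal (dens μ y)) ∧
      (∀ y, 0 < dens μ y) ∧ Differentiable ℝ (dens μ) ∧ fisher (dens μ) ≤ 1) ∧
    ∀ f : ℝ → ℝ, (∀ x, 0 ≤ f x) → (∀ c d, AbsolutelyContinuousOnInterval f c d) →
      sumLaw μ = volume.withDensity (fun x => ENNReal.ofReal (f x)) →
      1 ≤ fisher f ∧ fisher (dens μ) ≤ fisher f := by
  have hq : dens μ = Pool.Agent.TH12.EN.q μ :=
    funext fun y => (Pool.Agent.TH12.EN.q_eq μ y).symm
  have h1 : fisher (dens μ) ≤ 1 := by
    rw [hq]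
    exact Pool.Agent.TH12.EN.fisher_Z μ
  refine ⟨⟨?_, ?_, ?_, h1⟩, fun f hf0 hac hlaw => ?_⟩
  · have h2 : gaussLaw μ = volume.withDensity (Pool.Agent.TH12.EN.Q μ) :=
      Pool.Agent.TH12.EN.law_eq μ
    rw [h2, hq]
    congr 1
    funext y
    exact (Pool.Agent.TH12.EN.ofReal_q μ y).symm
  · rw [hq]
    exact Pool.Agent.TH12.EN.q_pos μ
  · rw [hq]
    exact fun y => (Pool.Agent.TH12.EN.hasDerivAt_q μ y).differentiableAt
  · have h3 : 1 ≤ fisher f := Pool.Agent.TH12.EN.sum_fisher μ a ℓ hℓ hA f hf0 hac hlaw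
    exact ⟨h3, h1.trans h3⟩

end Pool.Agent.Results.MP_ec2ab1_pr.ShortInterval
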