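import Pool.Agent.TH12.EN.Sum
import Pool.Agent.TH12.EN.Cor
set_option autoImplicit false

/-!
# Entropy of `X + Y` against `X + Z`: laws on sets with a small sumset

`X`, `Y` are independent with the law `μ`, and `Z` is an independent standard Gaussian.
The inequality `h(X + Y) ≤ h(X + Z)` is proved for every law `μ` with finite second moment that lives
on a set `A` such that the sumset `A + A` has Lebesgue measure at most `√(2 π e) = 4.13...`, or at
most `2 √π / E exp (- (X - Y)² / 4)`; in particular for every law of variance one on an interval of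
length `12 / 5` (an interval that carries a law of variance one has length at least `2`, and length
`2` only for the fair two-point law).
-/

namespace Pool.Agent.Results.MP_ec2ab1_pr.SmallSumset

open MeasureTheory ProbabilityTheory
open scoped ENNReal Pointwise

/-- The law of `X + Y`. -/
noncomputable def sumLaw (μ : Measure ℝ) : Measure ℝ :=
  (μ.prod μ).map (fun p : ℝ × ℝ => p.1 + p.2)

/-- The law of `X + Z`. -/
noncomputable def gaussLaw (μ : Measure ℝ) : Measure ℝ :=
  (μ.prod (gaussianReal 0 1)).map (fun p : ℝ × ℝ => p.1 + p.2)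

/-- The differential entropy of a law with a density. -/
noncomputable def ent (ν : Measure ℝ) : ℝ :=
  -∫ x : ℝ, (ν.rnDeriv volume x).toReal * Real.log ((ν.rnDeriv volume x).toReal)

/-- The mean of `exp (- (X - Y)² / 4)`. -/
noncomputable def closeness (μ : Measure ℝ) : ℝ :=
  ∫ p : ℝ × ℝ, Real.exp (-(p.1 - p.2) ^ 2 / 4) ∂(μ.prod μ)

/-- Let `μ` be a law with finite second moment. (1), (2) Two lower bounds for `h(X + Z)`.
If `X + Y` has a density and a finite entropy, then `h(X + Y) ≤ h(X + Z)` in each of the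
following cases. (3) `X` lies in a set `A` with `|A + A| ≤ √(2 π e)`. (4) `X` lies in a set `A` with
`|A + A| E exp (- (X - Y)² / 4) ≤ 2 √π`. (5) `X` has variance one and lies in an interval of
length `12 / 5`. -/
theorem result (μ : Measure ℝ) [IsProbabilityMeasure μ] (h2 : MemLp (fun x : ℝ => x) 2 μ) :
    Real.log (2 * Real.pi * Real.exp 1) / 2 ≤ ent (gaussLaw μ) ∧
    Real.log (2 * √Real.pi) - Real.log (closeness μ) ≤ ent (gaussLaw μ) ∧
    (sumLaw μ ≪ volume →
      Integrable (fun x : ℝ => ((sumLaw μ).rnDeriv volume x).toReal *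
        Real.log (((sumLaw μ).rnDeriv volume x).toReal)) volume →
      (∀ A : Set ℝ, (∀ᵐ x ∂μ, x ∈ A) →
        volume (A + A) ≤ ENNReal.ofReal (√(2 * Real.pi * Real.exp 1)) →
        ent (sumLaw μ) ≤ ent (gaussLaw μ)) ∧
      (∀ A : Set ℝ, (∀ᵐ x ∂μ, x ∈ A) →
        volume (A + A) * ENNReal.ofReal (closeness μ) ≤ ENNReal.ofReal (2 * √Real.pi) →
        ent (sumLaw μ) ≤ ent (gaussLaw μ)) ∧
      (variance (fun x : ℝ => x) μ = 1 →
        ∀ a : ℝ, (∀ᵐ x ∂μ, x ∈ Set.Icc a (a + 12 / 5)) → ent (sumLaw μ) ≤ ent (gaussLaw μ))) := by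
  have hg : ent (gaussLaw μ) = -∫ y, Pool.Agent.TH12.EN.q μ y *
      Real.log (Pool.Agent.TH12.EN.q μ y) := Pool.Agent.TH12.EN.gauss_ent μ
  have h3 : Real.log (2 * Real.pi * Real.exp 1) / 2 ≤ ent (gaussLaw μ) := by
    rw [hg]
    exact Pool.Agent.TH12.EN.gauss_low2 μ h2
  refine ⟨h3, ?_, fun hac hint => ⟨fun A hA hAA => ?_, fun A hA hAA => ?_, fun hv a ha => ?_⟩⟩
  · rw [hg]
    exact Pool.Agent.TH12.EN.gauss_low1 μ h2
  · refine le_trans ?_ h3
    have hpos : 0 < 2 * Real.pi * Real.exp 1 := by positivity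
    rw [← Real.log_sqrt hpos.le]
    exact Pool.Agent.TH12.EN.sum_upper μ A hA hac hint _ (Real.sqrt_pos.2 hpos) hAA
  · exact Pool.Agent.TH12.EN.main μ h2 A hA hAA hac hint
  · exact Pool.Agent.TH12.EN.cor μ h2 hv a ha hac hint

end Pool.Agent.Results.MP_ec2ab1_pr.SmallSumset
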